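import Pool.Agent.TH492.Sep

set_option autoImplicit false

namespace Pool.Agent.Results.MP_9d6589_co.StrongColoringPolynomial

open Pool.Agent.TH492.Col

/-- Two vertex sets touch if they share a vertex or some edge joins them. -/
def Touch {n : ℕ} (G : SimpleGraph (Fin n)) (A B : Set (Fin n)) : Prop :=
  (∃ x, x ∈ A ∧ x ∈ B) ∨ ∃ a ∈ A, ∃ b ∈ B, G.Adj a b

/-- `B` is connected and the induced graph on `B` has radius at most `r`: some vertex `x` of `B`
reaches all of `B` by walks of length `≤ r` inside `B`. -/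
def RadiusLE {n : ℕ} (r : ℕ) (G : SimpleGraph (Fin n)) (B : Set (Fin n)) : Prop :=
  ∃ x ∈ B, ∀ y ∈ B, ∃ p : G.Walk x y, p.length ≤ r ∧ ∀ w ∈ p.support, w ∈ B

/-- depth-`r` brambles. -/
def IsBramble {n : ℕ} (r : ℕ) (G : SimpleGraph (Fin n)) (F : Set (Set (Fin n))) : Prop :=
  (∀ B ∈ F, RadiusLE r G B) ∧ ∀ A ∈ F, ∀ B ∈ F, Touch G A B

/-- the order of a bramble: the least size of a vertex set meeting every member. -/
noncomputable def order {n : ℕ} (F : Set (Set (Fin n))) : ℕ :=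
  sInf {k | ∃ S : Finset (Fin n), S.card = k ∧ ∀ B ∈ F, ∃ x ∈ B, x ∈ S}

/-- `bn_r(G)`: the largest order of a depth-`r` bramble of `G`. -/
noncomputable def bn {n : ℕ} (r : ℕ) (G : SimpleGraph (Fin n)) : ℕ :=
  sSup {k | ∃ F : Set (Set (Fin n)), IsBramble r G F ∧ order F = k}

/-- the monotone closure of a class. -/
def closure (C : (n : ℕ) → SimpleGraph (Fin n) → Prop) : (n : ℕ) → SimpleGraph (Fin n) → Prop :=
  fun m H => ∃ (n : ℕ) (G : SimpleGraph (Fin n)) (f : H →g G), Function.Injective f ∧ C n G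

lemma closure_monotone (C : (n : ℕ) → SimpleGraph (Fin n) → Prop) : Monotone (closure C) := by
  rintro n m G H f hf ⟨k, K, g, hg, hC⟩
  exact ⟨k, K, g.comp f, hg.comp hf, hC⟩

lemma le_closure (C : (n : ℕ) → SimpleGraph (Fin n) → Prop) (n : ℕ) (G : SimpleGraph (Fin n))
    (h : C n G) : closure C n G :=
  ⟨n, G, SimpleGraph.Hom.id, fun _ _ h => h, h⟩

lemma depth_of_sub {n m k : ℕ} {r : ℕ} {G : SimpleGraph (Fin n)} {H : SimpleGraph (Fin m)}
    {M : SimpleGraph (Fin k)} (f : H →g G) (hf : Function.Injective f)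
    (h : IsDepthMinor r H M) : IsDepthMinor r G M := by
  obtain ⟨B, h1, h2, h3⟩ := h
  refine ⟨fun i => f '' B i, ?_, ?_, ?_⟩
  · intro i j hij
    exact (Set.disjoint_image_iff hf).2 (h1 i j hij)
  · intro i
    obtain ⟨x, hx, hx'⟩ := h2 i
    refine ⟨f x, ⟨x, hx, rfl⟩, ?_⟩
    rintro _ ⟨y, hy, rfl⟩
    obtain ⟨p, hp, hp'⟩ := hx' y hy
    refine ⟨p.map f, by simpa using hp, ?_⟩
    intro w hw
    rw [SimpleGraph.Walk.support_map, List.mem_map] at hw
    obtain ⟨z, hz, rfl⟩ := hw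
    exact ⟨z, hp' z hz, rfl⟩
  · intro i j hij
    obtain ⟨a, ha, b, hb, hab⟩ := h3 i j hij
    exact ⟨f a, ⟨a, ha, rfl⟩, f b, ⟨b, hb, rfl⟩, f.map_adj hab⟩

lemma closure_exp {C : (n : ℕ) → SimpleGraph (Fin n) → Prop} (h : PolyExpansion C) :
    PolyExpansion (closure C) := by
  obtain ⟨P, hP⟩ := h
  refine ⟨P, ?_⟩
  rintro r m H ⟨n, G, f, hf, hC⟩ k M hM
  exact hP r n G hC k M (depth_of_sub f hf hM)

lemma col_zero {n : ℕ} (G : SimpleGraph (Fin n)) : col 0 G ≤ 1 := by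
  apply Nat.sInf_le
  refine ⟨Equiv.refl _, fun u => ?_⟩
  have : Strong G (Equiv.refl _) 0 u ⊆ {u} := by
    rintro v ⟨_, p, _, hp, _⟩
    have h0 : p.length = 0 := by omega
    exact (SimpleGraph.Walk.eq_of_length_eq_zero h0).symm
  calc (Strong G (Equiv.refl _) 0 u).ncard ≤ ({u} : Set (Fin n)).ncard :=
        Set.ncard_le_ncard this (Set.finite_singleton u)
    _ = 1 := Set.ncard_singleton u

/-- **Q1 has a positive answer**, in the strong form that the bramble number is not even needed: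
for every class of finite graphs with polynomial expansion (not assumed closed under subgraphs)
the strong coloring numbers are bounded by a polynomial in `r` alone; in particular there is a
polynomial `f` in two variables with `scol_r(G) ≤ f(r, bn_r(G))`. -/
theorem result (C : (n : ℕ) → SimpleGraph (Fin n) → Prop) (hC : PolyExpansion C) :
    (∃ P : Polynomial ℝ, ∀ (r n : ℕ) (G : SimpleGraph (Fin n)), C n G →
      (col r G : ℝ) ≤ P.eval (r : ℝ)) ∧
    ∃ f : MvPolynomial (Fin 2) ℝ, ∀ (r n : ℕ) (G : SimpleGraph (Fin n)), C n G →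
      (col r G : ℝ) ≤ MvPolynomial.eval ![(r : ℝ), (bn r G : ℝ)] f := by
  obtain ⟨c, K, h⟩ := polyCol_of_uniform (uniform_of_polyExp (closure_exp hC))
  have key : ∀ (r n : ℕ) (G : SimpleGraph (Fin n)), C n G →
      (col r G : ℝ) ≤ |K| * (r : ℝ) ^ ⌈c⌉₊ + 1 := by
    intro r n G hG
    rcases Nat.eq_zero_or_pos r with rfl | hr
    · have h1 : (col 0 G : ℝ) ≤ 1 := by exact_mod_cast col_zero G
      have h2 : 0 ≤ |K| * ((0 : ℕ) : ℝ) ^ ⌈c⌉₊ := by positivity
      linarith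
    · have h1 := h r n G hr (le_closure C n G hG)
      have hr1 : (1 : ℝ) ≤ r := by exact_mod_cast hr
      have h2 : (r : ℝ) ^ c ≤ (r : ℝ) ^ ⌈c⌉₊ := by
        rw [← Real.rpow_natCast]
        exact Real.rpow_le_rpow_of_exponent_le hr1 (Nat.le_ceil c)
      have h3 : K * (r : ℝ) ^ c ≤ |K| * (r : ℝ) ^ ⌈c⌉₊ := by
        calc K * (r : ℝ) ^ c ≤ |K| * (r : ℝ) ^ c :=
              mul_le_mul_of_nonneg_right (le_abs_self K) (by positivity)
          _ ≤ |K| * (r : ℝ) ^ ⌈c⌉₊ := mul_le_mul_of_nonneg_left h2 (abs_nonneg K)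
      linarith
  refine ⟨⟨Polynomial.C |K| * Polynomial.X ^ ⌈c⌉₊ + 1, ?_⟩,
    ⟨MvPolynomial.C |K| * MvPolynomial.X 0 ^ ⌈c⌉₊ + 1, ?_⟩⟩
  · intro r n G hG
    simpa using key r n G hG
  · intro r n G hG
    simpa using key r n G hG

end Pool.Agent.Results.MP_9d6589_co.StrongColoringPolynomial
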